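import Pool.Agent.H72Acc.Acc

/-!
# MP_968b89_ag: the ascending chain condition for interpolated log canonical thresholds tested on
divisors of bounded level, for foliations of every rank on smooth varieties of every dimension

For all `d ≥ 1`, `r`, `N` and every set `Γ` of nonnegative real numbers with the descending chain
condition there is a set `Γ'` with the ascending chain condition such that the following holds for
every smooth variety `X` of dimension `d` over a field `k` of characteristic zero (given by its
closed points `p i` with residue field `k`, or by any family of them), every foliation `F` of rank `r`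
on `X` and every divisor `B` with coefficients in `Γ`.

* The threshold `ilctN N`, tested on all divisors of level `N`, is in `Γ'`. A divisor `E` over `X` has
  level `N` if it is given by a monomial valuation in coordinates `z_i` at a closed point of a smooth
  variety `Y` over `X` at which `K_(Y/X) = ∑ α_i div (z_i)` with `α_i ≤ N`. (Level `0`: weighted
  blow-ups of `X`. Every divisor over `X` has some level.)
* If `(F, B)` becomes log monomial at level `N`, then the interpolated log canonical threshold itself
  is equal to `ilctN N`, so it is in `Γ'` (the statement of the problem for these triples).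

`F` is spanned by the derivations `D a` of the function field (closure under the Lie bracket is not
needed), `h i` is chosen such that the `r`-vector `η = h i D_1 ∧ ... ∧ D_r` generates
`O(-(K_F + B₀))` at `p i` (`B₀` an effective divisor with integral coefficients, for example `0`, which
is added to `B`), and `B = ∑ b_j div (f_j)` near `p i`.
-/

set_option autoImplicit false

noncomputable section

namespace Pool.Agent.Results.MP_968b89_ag.BoundedLevel

open Pool.Agent.FolGap Pool.Agent.H72Acc

theorem result (d r N : ℕ) (hd : 1 ≤ d) (Γ : Set ℝ) (h0 : ∀ γ ∈ Γ, 0 ≤ γ)
    (hΓ : ∀ g : ℕ → ℝ, StrictAnti g → ∃ n, g n ∉ Γ) :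
    ∃ Γ' : Set ℝ, (∀ g : ℕ → ℝ, StrictMono g → ∃ n, g n ∉ Γ') ∧
      ∀ (k K : Type) [Field k] [CharZero k] [Field K] [Algebra k K] (I : Type)
        (p : I → SmoothPoint k K d) (D : Fin r → Derivation k K K) (h : I → K) (s : I → ℕ)
        (b : (i : I) → Fin (s i) → ℝ) (f : (i : I) → Fin (s i) → K),
        (∀ i, (∃ g, wedge D (h i) g ≠ 0) ∧
          ∀ g : Fin r → K, (∀ a, g a ∈ (p i).ring) → wedge D (h i) g ∈ (p i).ring) →
        (∀ i j, b i j ∈ Γ ∧ f i j ∈ (p i).ring ∧ f i j ≠ 0) →
        ilctN N p (fun i => wedge D (h i)) b f ∈ Γ' ∧
        ((∀ i, LogMonomialLevel N (p i) (wedge D (h i)) (f i)) →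
          ilctR p (fun i => wedge D (h i)) b f = ilctN N p (fun i => wedge D (h i)) b f) :=
  acc d r N hd Γ h0 hΓ

end Pool.Agent.Results.MP_968b89_ag.BoundedLevel
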