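import Pool.Agent.FolGap.MainB
import Pool.Agent.FolGap.Glob

/-!
# MP_968b89_ag: one is not an accumulation point of interpolated log canonical thresholds, for
foliations of rank one on smooth varieties and arbitrary coefficient sets with the DCC

For every dimension `d ≥ 1` and every set `Γ` of nonnegative real numbers without infinite strictly
decreasing sequence there is `η > 0` with the following property. Let `X` be a smooth variety of
dimension `d` over a field `k` of characteristic zero, let `F` be a foliation of rank one on `X`,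
generated at the closed point `p i` (with residue field `k`) by the derivation `D i` of the local
ring, and let `B` be a divisor with coefficients in `Γ`, `B = ∑ b_j div (f_j)` near the point. Then
either `(X, F, t B, t)` is log canonical for all `t` in `[0, 1]` (and `ilct(X, F, B) = 1`), or it is
not log canonical for all `t > 1 - η` (and `ilct(X, F, B) ≤ 1 - η`). The theorem is more general:
`D i ≠ 0` is any derivation of the local ring, so `D i` generates `O(-(K_F + B₀))`, for some
effective divisor `B₀` with integral coefficients, which is added to `B`, and the `f_j` are any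
nonzero elements of the local ring.
-/

set_option autoImplicit false

noncomputable section

namespace Pool.Agent.Results.MP_968b89_ag.DccGap

open Pool.Agent.FolGap

theorem result (d : ℕ) (hd : 1 ≤ d) (Γ : Set ℝ) (h0 : ∀ γ ∈ Γ, 0 ≤ γ)
    (hΓ : ∀ g : ℕ → ℝ, StrictAnti g → ∃ n, g n ∉ Γ) :
    ∃ η : ℝ, 0 < η ∧ ∀ (k K : Type) [Field k] [CharZero k] [Field K] [Algebra k K] (I : Type)
      (p : I → SmoothPoint k K d) (D : I → Derivation k K K) (s : I → ℕ)
      (b : (i : I) → Fin (s i) → ℝ) (f : (i : I) → Fin (s i) → K),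
      (∀ i, D i ≠ 0 ∧ ∀ g ∈ (p i).ring, D i g ∈ (p i).ring) →
      (∀ i j, b i j ∈ Γ ∧ f i j ∈ (p i).ring ∧ f i j ≠ 0) →
      ((∀ t : ℝ, 0 ≤ t → t ≤ 1 → ∀ i, LcB (p i) (D i) (b i) (f i) t) ∧
        ilctXB p D b f = 1) ∨
      ((∀ t : ℝ, 1 - η < t → t ≤ 1 → ¬ ∀ i, LcB (p i) (D i) (b i) (f i) t) ∧
        ilctXB p D b f ≤ 1 - η) := by
  obtain ⟨η, hη, hη1, h⟩ := gapB hd h0 hΓ
  refine ⟨η, hη, ?_⟩
  intro k K _ _ _ _ I p D s b f hD hbf
  by_cases hall : ∀ i, ∀ t : ℝ, 0 ≤ t → t ≤ 1 → LcB (p i) (D i) (b i) (f i) t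
  · left
    have h1 : ∀ t : ℝ, 0 ≤ t → t ≤ 1 → ∀ i, LcB (p i) (D i) (b i) (f i) t :=
      fun t ht0 ht1 i => hall i t ht0 ht1
    refine ⟨h1, le_antisymm ?_ ?_⟩
    · exact csSup_le ⟨1, zero_le_one, le_rfl, h1 1 zero_le_one le_rfl⟩ fun s hs => hs.2.1
    · exact le_csSup ⟨1, fun s hs => hs.2.1⟩ ⟨zero_le_one, le_rfl, h1 1 zero_le_one le_rfl⟩
  · right
    push Not at hall
    obtain ⟨i, t₀, ht₀, ht₀', hnot⟩ := hall
    have h1 : ∀ t : ℝ, 0 ≤ t → t ≤ 1 → LcB (p i) (D i) (b i) (f i) t → t ≤ 1 - η := by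
      rcases h k K (p i) (D i) (hD i).1 (hD i).2 (s i) (b i) (f i) (fun j => (hbf i j).1)
        (fun j => (hbf i j).2) with h2 | h2
      · exact absurd (h2 t₀ ht₀ ht₀') hnot
      · exact h2
    refine ⟨fun t ht ht1 hlc => ?_, ?_⟩
    · exact absurd (h1 t (by linarith) ht1 (hlc i)) (not_le.2 ht)
    · exact Real.sSup_le (fun t ht => h1 t ht.1 ht.2.1 (ht.2.2 i)) (by linarith)

end Pool.Agent.Results.MP_968b89_ag.DccGap
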