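import Pool.Agent.H72Pen.General

/-!
# Interpolated log canonical thresholds of foliations of codimension one with a rational first
integral (pencils, fibrations over curves), in every dimension

Let `X` be a normal variety of dimension `e + 1` with an `ℝ`-Cartier divisor `K_X`, `F` a foliation of
codimension one on `X` with a rational first integral, and `B` such that `K_F + B` is
`ℝ`-Cartier. Near the closed point `p` the foliation is defined by `dφ` for a rational function `φ`.

(1) Let `D_α = (K_F + B) - K_X + div φ + div (1 + α φ)`. At every point `p` this is the divisor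
`B + (the reduced fibre over 0) + (the reduced fibre over - 1 / α) + ∑ (1 - n) P`, where the sum is
over the components `P`, of multiplicity `n`, of all other fibres, and `(X, F, t B, t)` is log
canonical at `p` if and only if the pairs `(X, t D_α)` are log canonical at `p` for all `α`
(sub-log canonical, if `D_α` is not effective).

(2) Suppose that either `φ` is a regular function at `p` with `φ (p) = 0` (`F` is a fibration over a
curve near this point), or all the fibres of `φ` through the point, except possibly the fibre over
`0`, are reduced (so the point is contained in at most one member with multiple components of the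
pencil). Then the `D_α` are effective (for `B ≥ 0`), and the ascending chain condition for log
canonical thresholds of pairs (Hacon, McKernan, Xu) in dimension `e + 1` implies the ascending chain
condition for the interpolated log canonical thresholds of these foliated triples, for all sets `Γ` of
coefficients with the descending chain condition.
-/

set_option autoImplicit false

noncomputable section

namespace Pool.Agent.Results.MP_968b89_ag.FirstIntegral

open Pool.Agent.H72Acc Pool.Agent.H72Pen

theorem result (e : ℕ) :
    (∀ (k K : Type) [Field k] [IsAlgClosed k] [CharZero k] [Field K] [Algebra k K]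
      (F : Frame k K (e + 1)) (p : Germ k K) (φ : K) (κ lam : Kˣ →₀ ℝ),
      (∀ a : k, φ ≠ algebraMap k K a) → CanCartier F p κ →
      (∀ v, IsDiv (e + 1) p v → OnX p v → ∀ m, OrdR v (eta F φ) m → ∀ α : k,
        (InFibre v φ α → mult v (mdiv κ lam φ α) = (mult v lam + m) + 1) ∧
        (¬ InFibre v φ α →
          (∀ n, FibreMult k v φ n → mult v (mdiv κ lam φ α) = (mult v lam + m) + 1 - n) ∧
          ((∀ n, ¬ FibreMult k v φ n) → mult v (mdiv κ lam φ α) = mult v lam + m))) ∧
      ∀ t : ℝ, 0 ≤ t → ((∀ v, IsDiv (e + 1) p v → FolLc F φ κ lam t v) ↔
        ∀ α : k, PairLc F p κ (mdiv κ lam φ α) t)) ∧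
    (LctAcc (e + 1) → ∀ Γ : Set ℝ, (∀ γ ∈ Γ, 0 ≤ γ) → Dcc Γ →
      ∃ Γ' : Set ℝ, Acc Γ' ∧
        ∀ (k K : Type) [Field k] [IsAlgClosed k] [CharZero k] [Field K] [Algebra k K]
          (F : Frame k K (e + 1)) (I : Type) (p : I → Germ k K) (φ : I → K)
          (κ lam : I → (Kˣ →₀ ℝ)),
          (∀ i, (∀ a : k, φ i ≠ algebraMap k K a) ∧ Admissible (e + 1) (p i) (φ i) ∧
            CanCartier F (p i) (κ i) ∧ FolCartier F (p i) (φ i) (lam i) Γ) →
          ilct F p φ κ lam ∈ Γ') :=
  ⟨fun _ _ _ _ _ _ _ F p _ _ _ hφ hκ => general_iff F p hφ hκ,
    fun h Γ h0 hΓ => acc_of_lctAcc e h Γ h0 hΓ⟩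

end Pool.Agent.Results.MP_968b89_ag.FirstIntegral
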