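import Pool.Agent.FolGap.Main
import Pool.Agent.FolGap.Affine
import Pool.Agent.FolGap.Glob

/-!
# MP_968b89_ag: the largest interpolated log canonical threshold below one, for foliations of rank
one on smooth varieties of dimension `d`

Let `X` be a smooth variety of dimension `d` over a field `k` of characteristic zero, let `F` be a
foliation of rank one on `X`, and let `B` be an effective divisor with integral coefficients. At
every closed point `p i` (with residue field `k`) the sheaf `O(-(K_F + B))` is generated by a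
derivation `D i ≠ 0` of the local ring. The set of all values `ilct(X, F, B)` which are less than
`1` has the greatest element `d (3 d - 1) / (d (3 d - 1) + 2)`. Moreover `(X, F, t B, t)` is log
canonical for all `t` in `[0, 1]` as soon as it is log canonical for one `t` greater than this
number.
-/

set_option autoImplicit false

noncomputable section

namespace Pool.Agent.Results.MP_968b89_ag.RankOneGap

open Pool.Agent.FolGap

theorem result (k : Type) [Field k] [CharZero k] (d : ℕ) (hd : 1 ≤ d) :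
    IsGreatest {c : ℝ | c < 1 ∧ ∃ (K : Type) (_ : Field K) (_ : Algebra k K) (I : Type)
      (p : I → SmoothPoint k K d) (D : I → Derivation k K K),
      (∀ i, D i ≠ 0 ∧ ∀ f ∈ (p i).ring, D i f ∈ (p i).ring) ∧
      c = ilctX p D} ((d * (3 * d - 1)) / (d * (3 * d - 1) + 2)) ∧
    ∀ (K : Type) [Field K] [Algebra k K] (I : Type) (p : I → SmoothPoint k K d)
      (D : I → Derivation k K K), (∀ i, D i ≠ 0 ∧ ∀ f ∈ (p i).ring, D i f ∈ (p i).ring) →
      ∀ t : ℝ, (d * (3 * d - 1)) / (d * (3 * d - 1) + 2) < t → t ≤ 1 →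
        (∀ i, Lc (p i) (D i) t) → ∀ s : ℝ, 0 ≤ s → s ≤ 1 → ∀ i, Lc (p i) (D i) s := by
  have key : ∀ (K : Type) [Field K] [Algebra k K] (I : Type) (p : I → SmoothPoint k K d)
      (D : I → Derivation k K K), (∀ i, D i ≠ 0 ∧ ∀ f ∈ (p i).ring, D i f ∈ (p i).ring) →
      ∀ t : ℝ, (d * (3 * d - 1)) / (d * (3 * d - 1) + 2) < t → t ≤ 1 →
        (∀ i, Lc (p i) (D i) t) → ∀ s : ℝ, 0 ≤ s → s ≤ 1 → ∀ i, Lc (p i) (D i) s := by
    intro K _ _ I p D hD t ht ht1 h s hs0 hs1 i
    exact gap hd (hD i).1 (hD i).2 ht1 ht (h i) hs0 hs1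
  refine ⟨⟨⟨thr_lt_one hd, ?_⟩, ?_⟩, key⟩
  · obtain ⟨p⟩ := exists_smoothPoint k d
    refine ⟨_, inferInstance, inferInstance, Unit, fun _ => p, fun _ => shift p,
      fun _ => ⟨shift_ne_zero p hd, fun f hf => shift_mem p hf⟩, ?_⟩
    have h : ilctX (fun _ : Unit => p) (fun _ => shift p) = ilct p (shift p) := by
      unfold ilctX ilct
      congr 1
      ext t
      simp
    rw [h]
    exact (ilct_shift p hd).symm
  · rintro c ⟨hc1, K, _, _, I, p, D, hD, rfl⟩
    refine Real.sSup_le (fun t ht => ?_) (thr_nonneg hd)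
    by_contra hlt
    refine absurd hc1 (not_lt.2 ?_)
    refine le_csSup ⟨1, fun s hs => hs.2.1⟩ ⟨zero_le_one, le_rfl, ?_⟩
    exact key K I p D hD t (not_le.1 hlt) ht.2.1 ht.2.2 1 zero_le_one le_rfl

end Pool.Agent.Results.MP_968b89_ag.RankOneGap
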